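import Mathlib

/-!
# Non-regular solutions of the three-dimensional queens problem

For every composite `n` coprime to `210` (for instance `n = 121`) the `(n,3)`-queens problem has a
non-regular solution: a composition of a toroidal linear solution modulo `m` with linear solutions
modulo `q` that vary with the residue class modulo `m`, where `n = m q`.
-/

set_option autoImplicit false

namespace Pool.Agent.Results.MP_70387e_co.NonRegular

/-- Two cells attack each other: their difference is `t v` with `t ≠ 0` and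
`v ∈ {-1,0,1}^3 \ {0}`. -/
def Attack (x y : Fin 3 → ℤ) : Prop :=
  ∃ t : ℤ, t ≠ 0 ∧ ∃ v : Fin 3 → ℤ, v ≠ 0 ∧ (∀ i, v i = -1 ∨ v i = 0 ∨ v i = 1) ∧ y - x = t • v

/-- `Q` is a solution of the `(n,3)`-queens problem: `n^2` pairwise non-attacking cells of
`{1,…,n}^3`. -/
def IsSolution (n : ℕ) (Q : Finset (Fin 3 → ℤ)) : Prop :=
  (∀ x ∈ Q, ∀ i, 1 ≤ x i ∧ x i ≤ n) ∧ Q.card = n ^ 2 ∧
    ∀ x ∈ Q, ∀ y ∈ Q, x ≠ y → ¬ Attack x y

/-- A solution is regular (linear) if its third coordinate is congruent to `a i + b j + c`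
modulo `n`, where `i, j` are the first two coordinates. -/
def IsRegular (n : ℕ) (Q : Finset (Fin 3 → ℤ)) : Prop :=
  ∃ a b c : ℤ, ∀ x ∈ Q, x 2 ≡ a * x 0 + b * x 1 + c [ZMOD n]

/-- the linear form used in the residue class `(0,0)` and in the other classes -/
def lin (z : Prop) [Decidable z] (x y : ℤ) : ℤ := if z then 5 * x + 3 * y else 3 * x + 5 * y

/-- the height function on `{0,…,mq-1}^2` -/
def g (m q : ℤ) (x y : ℤ) : ℤ :=
  (3 * x + 5 * y) % m + m * (lin (x % m = 0 ∧ y % m = 0) (x / m) (y / m) % q)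

/-- a linear form with coefficients `3, 5` or `5, 3` has no toroidal attacks modulo `m` when
`gcd (m, 210) = 1` -/
lemma dvd_of_lin {m : ℤ} (hm : IsCoprime m 210) {z : Prop} [Decidable z] {t v0 v1 v2 : ℤ}
    (h0 : v0 = -1 ∨ v0 = 0 ∨ v0 = 1) (h1 : v1 = -1 ∨ v1 = 0 ∨ v1 = 1)
    (h2 : v2 = -1 ∨ v2 = 0 ∨ v2 = 1) (hv : ¬ (v0 = 0 ∧ v1 = 0 ∧ v2 = 0))
    (h : m ∣ t * (lin z v0 v1 - v2)) : m ∣ t := by
  have key : ∀ d : ℤ, d ∣ 210 ^ 3 → m ∣ t * d → m ∣ t := by
    intro d hd hdvd
    have hc : IsCoprime m d := (hm.pow_right).of_isCoprime_of_dvd_right hd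
    exact hc.dvd_of_dvd_mul_right hdvd
  refine key _ ?_ h
  unfold lin
  split_ifs <;> rcases h0 with rfl | rfl | rfl <;> rcases h1 with rfl | rfl | rfl <;>
    rcases h2 with rfl | rfl | rfl <;> first | (exact absurd ⟨rfl, rfl, rfl⟩ hv) | norm_num

lemma lin_sub (z : Prop) [Decidable z] (x y x' y' : ℤ) :
    lin z x' y' - lin z x y = lin z (x' - x) (y' - y) := by
  unfold lin; split_ifs <;> ring

lemma lin_smul (z : Prop) [Decidable z] (s x y : ℤ) :
    lin z (s * x) (s * y) = s * lin z x y := by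
  unfold lin; split_ifs <;> ring

lemma g_mod {m q : ℤ} (x y : ℤ) : m ∣ (3 * x + 5 * y) - g m q x y := by
  unfold g
  have h : (3 * x + 5 * y) - ((3 * x + 5 * y) % m +
      m * (lin (x % m = 0 ∧ y % m = 0) (x / m) (y / m) % q)) =
      m * ((3 * x + 5 * y) / m - lin (x % m = 0 ∧ y % m = 0) (x / m) (y / m) % q) := by
    have := Int.emod_add_mul_ediv (3 * x + 5 * y) m
    linear_combination (-1 : ℤ) * this
  rw [h]; exact dvd_mul_right _ _

lemma g_range {m q : ℤ} (hm : 0 < m) (hq : 0 < q) (x y : ℤ) : 0 ≤ g m q x y ∧ g m q x y < m * q := by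
  unfold g
  have h1 := Int.emod_nonneg (3 * x + 5 * y) hm.ne'
  have h2 := Int.emod_lt_of_pos (3 * x + 5 * y) hm
  have h3 := Int.emod_nonneg (lin (x % m = 0 ∧ y % m = 0) (x / m) (y / m)) hq.ne'
  have h4 := Int.emod_lt_of_pos (lin (x % m = 0 ∧ y % m = 0) (x / m) (y / m)) hq
  constructor
  · positivity
  · nlinarith

/-- the heart: no attack -/
lemma no_attack {m q : ℤ} (hm : 0 < m) (hm' : IsCoprime m 210)
    (hq' : IsCoprime q 210) {x y x' y' t v0 v1 v2 : ℤ}
    (h0 : v0 = -1 ∨ v0 = 0 ∨ v0 = 1) (h1 : v1 = -1 ∨ v1 = 0 ∨ v1 = 1)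
    (h2 : v2 = -1 ∨ v2 = 0 ∨ v2 = 1) (hv : ¬ (v0 = 0 ∧ v1 = 0 ∧ v2 = 0))
    (hx : x' - x = t * v0) (hy : y' - y = t * v1) (hz : g m q x' y' - g m q x y = t * v2) :
    m * q ∣ t := by
  have hmt : m ∣ t := by
    refine dvd_of_lin (z := False) hm' h0 h1 h2 hv ?_
    have ha := g_mod (m := m) (q := q) x' y'
    have hb := g_mod (m := m) (q := q) x y
    have hab := dvd_sub ha hb
    have : t * (lin False v0 v1 - v2) =
        (3 * x' + 5 * y') - g m q x' y' - ((3 * x + 5 * y) - g m q x y) := by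
      unfold lin
      rw [if_neg not_false]
      linear_combination (-3 : ℤ) * hx - 5 * hy + hz
    rw [this]; exact hab
  obtain ⟨s, rfl⟩ := hmt
  have hx' : x' = x + m * (s * v0) := by linear_combination hx
  have hy' : y' = y + m * (s * v1) := by linear_combination hy
  have e1 : x' % m = x % m := by rw [hx', Int.add_mul_emod_self_left]
  have e2 : y' % m = y % m := by rw [hy', Int.add_mul_emod_self_left]
  have e3 : x' / m = x / m + s * v0 := by rw [hx', Int.add_mul_ediv_left _ _ hm.ne']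
  have e4 : y' / m = y / m + s * v1 := by rw [hy', Int.add_mul_ediv_left _ _ hm.ne']
  have e5 : (3 * x' + 5 * y') % m = (3 * x + 5 * y) % m := by
    rw [hx', hy', show 3 * (x + m * (s * v0)) + 5 * (y + m * (s * v1)) =
      (3 * x + 5 * y) + m * (3 * (s * v0) + 5 * (s * v1)) by ring, Int.add_mul_emod_self_left]
  have hg : g m q x' y' = (3 * x + 5 * y) % m +
      m * (lin (x % m = 0 ∧ y % m = 0) (x / m + s * v0) (y / m + s * v1) % q) := by
    unfold g
    rw [e5, e3, e4]
    congr 3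
    simp only [e1, e2]
  have hg0 : g m q x y = (3 * x + 5 * y) % m +
      m * (lin (x % m = 0 ∧ y % m = 0) (x / m) (y / m) % q) := rfl
  rw [hg, hg0] at hz
  have hz' : lin (x % m = 0 ∧ y % m = 0) (x / m + s * v0) (y / m + s * v1) % q -
      lin (x % m = 0 ∧ y % m = 0) (x / m) (y / m) % q = s * v2 := by
    have : m * (lin (x % m = 0 ∧ y % m = 0) (x / m + s * v0) (y / m + s * v1) % q -
      lin (x % m = 0 ∧ y % m = 0) (x / m) (y / m) % q) = m * (s * v2) := by
      linear_combination hz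
    exact mul_left_cancel₀ hm.ne' this
  have hqs : q ∣ s := by
    refine dvd_of_lin (z := x % m = 0 ∧ y % m = 0) hq' h0 h1 h2 hv ?_
    have hd1 := Int.emod_add_mul_ediv
      (lin (x % m = 0 ∧ y % m = 0) (x / m + s * v0) (y / m + s * v1)) q
    have hd2 := Int.emod_add_mul_ediv (lin (x % m = 0 ∧ y % m = 0) (x / m) (y / m)) q
    have hl := lin_sub (x % m = 0 ∧ y % m = 0) (x / m) (y / m) (x / m + s * v0) (y / m + s * v1)
    rw [add_sub_cancel_left, add_sub_cancel_left, lin_smul] at hl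
    refine ⟨lin (x % m = 0 ∧ y % m = 0) (x / m + s * v0) (y / m + s * v1) / q -
      lin (x % m = 0 ∧ y % m = 0) (x / m) (y / m) / q, ?_⟩
    linear_combination (-1 : ℤ) * hl + hz' - hd1 + hd2
  exact mul_dvd_mul_left m hqs

/-- the set of queens -/
noncomputable def queens (m q : ℕ) : Finset (Fin 3 → ℤ) :=
  (Finset.Icc (1 : ℤ) (m * q) ×ˢ Finset.Icc (1 : ℤ) (m * q)).image
    fun p => ![p.1, p.2, g m q (p.1 - 1) (p.2 - 1) + 1]

lemma mem_queens {m q : ℕ} {x : Fin 3 → ℤ} : x ∈ queens m q ↔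
    (1 ≤ x 0 ∧ x 0 ≤ m * q) ∧ (1 ≤ x 1 ∧ x 1 ≤ m * q) ∧ x 2 = g m q (x 0 - 1) (x 1 - 1) + 1 := by
  unfold queens
  simp only [Finset.mem_image, Finset.mem_product, Finset.mem_Icc, Prod.exists]
  constructor
  · rintro ⟨a, b, ⟨ha, hb⟩, rfl⟩
    exact ⟨ha, hb, rfl⟩
  · rintro ⟨h0, h1, h2⟩
    refine ⟨x 0, x 1, ⟨h0, h1⟩, ?_⟩
    ext i
    fin_cases i
    · rfl
    · rfl
    · exact h2.symm

lemma card_queens (m q : ℕ) : (queens m q).card = (m * q) ^ 2 := by
  unfold queens
  rw [Finset.card_image_of_injOn, Finset.card_product, Int.card_Icc]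
  · have : ((m : ℤ) * q + 1 - 1).toNat = m * q := by
      rw [add_sub_cancel_right]; exact_mod_cast Int.toNat_natCast (m * q)
    rw [this]; ring
  · rintro ⟨a, b⟩ _ ⟨a', b'⟩ _ h
    have h0 := congrFun h 0
    have h1 := congrFun h 1
    simp at h0 h1
    rw [h0, h1]

lemma isSolution_queens {m q : ℕ} (hm : 1 < m) (hq : 1 < q) (h210 : Nat.Coprime (m * q) 210) :
    IsSolution (m * q) (queens m q) := by
  have hm0 : (0 : ℤ) < m := by exact_mod_cast (by omega : 0 < m)
  have hq0 : (0 : ℤ) < q := by exact_mod_cast (by omega : 0 < q)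
  have hmc : IsCoprime (m : ℤ) 210 := by
    have : Nat.Coprime m 210 := Nat.Coprime.coprime_mul_right h210
    exact_mod_cast Nat.isCoprime_iff_coprime.mpr this
  have hqc : IsCoprime (q : ℤ) 210 := by
    have : Nat.Coprime q 210 := Nat.Coprime.coprime_mul_left h210
    exact_mod_cast Nat.isCoprime_iff_coprime.mpr this
  refine ⟨?_, card_queens m q, ?_⟩
  · intro x hx i
    rw [mem_queens] at hx
    obtain ⟨h0, h1, h2⟩ := hx
    have hr := g_range hm0 hq0 (x 0 - 1) (x 1 - 1)
    push_cast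
    fin_cases i
    · exact h0
    · exact h1
    · show 1 ≤ x 2 ∧ x 2 ≤ (m : ℤ) * q
      rw [h2]; constructor <;> omega
  · intro x hx y hy hxy ⟨t, ht, v, hv, hvi, hd⟩
    rw [mem_queens] at hx hy
    obtain ⟨hx0, hx1, hx2⟩ := hx
    obtain ⟨hy0, hy1, hy2⟩ := hy
    have d0 : y 0 - x 0 = t * v 0 := by simpa using congrFun hd 0
    have d1 : y 1 - x 1 = t * v 1 := by simpa using congrFun hd 1
    have d2 : y 2 - x 2 = t * v 2 := by simpa using congrFun hd 2
    have hv' : ¬ (v 0 = 0 ∧ v 1 = 0 ∧ v 2 = 0) := by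
      rintro ⟨a, b, c⟩
      apply hv
      ext i
      fin_cases i
      · exact a
      · exact b
      · exact c
    have hdvd : (m : ℤ) * q ∣ t := by
      refine no_attack hm0 hmc hqc (x := x 0 - 1) (y := x 1 - 1) (x' := y 0 - 1)
        (y' := y 1 - 1) (hvi 0) (hvi 1) (hvi 2) hv' ?_ ?_ ?_
      · linear_combination d0
      · linear_combination d1
      · linear_combination d2 + hx2 - hy2
    have hle : (m : ℤ) * q ≤ |t| := by
      have := Int.le_of_dvd (abs_pos.mpr ht) ((dvd_abs _ _).mpr hdvd)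
      exact this
    have hrx := g_range hm0 hq0 (x 0 - 1) (x 1 - 1)
    have hry := g_range hm0 hq0 (y 0 - 1) (y 1 - 1)
    have b0 : |t * v 0| < (m : ℤ) * q := by rw [← d0, abs_lt]; constructor <;> omega
    have b1 : |t * v 1| < (m : ℤ) * q := by rw [← d1, abs_lt]; constructor <;> omega
    have b2 : |t * v 2| < (m : ℤ) * q := by
      rw [← d2, hx2, hy2, abs_lt]; constructor <;> omega
    have one : ∀ w : ℤ, (w = -1 ∨ w = 0 ∨ w = 1) → w ≠ 0 → |w| = 1 := by
      intro w hw hw0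
      rcases hw with rfl | rfl | rfl
      · norm_num
      · exact absurd rfl hw0
      · norm_num
    apply hv'
    refine ⟨?_, ?_, ?_⟩
    · by_contra hne
      rw [abs_mul, one _ (hvi 0) hne, mul_one] at b0
      exact absurd hle (not_le.mpr b0)
    · by_contra hne
      rw [abs_mul, one _ (hvi 1) hne, mul_one] at b1
      exact absurd hle (not_le.mpr b1)
    · by_contra hne
      rw [abs_mul, one _ (hvi 2) hne, mul_one] at b2
      exact absurd hle (not_le.mpr b2)

lemma not_isRegular_queens {m q : ℕ} (hm : 1 < m) (hq : 1 < q)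
    (h210 : Nat.Coprime (m * q) 210) : ¬ IsRegular (m * q) (queens m q) := by
  rintro ⟨a, b, c, h⟩
  have hmc : Nat.Coprime m 210 := Nat.Coprime.coprime_mul_right h210
  have hqc : Nat.Coprime q 210 := Nat.Coprime.coprime_mul_left h210
  have hm11 : 3 < m := by
    by_contra hlt
    interval_cases m <;> revert hmc <;> decide
  have hq11 : 5 < q := by
    by_contra hlt
    interval_cases q <;> revert hqc <;> decide
  have hm0 : (0 : ℤ) < m := by exact_mod_cast (by omega : 0 < m)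
  have hq0 : (0 : ℤ) < q := by exact_mod_cast (by omega : 0 < q)
  have hm3 : (3 : ℤ) < m := by exact_mod_cast hm11
  have hq5 : (5 : ℤ) < q := by exact_mod_cast hq11
  have hmq : (m : ℤ) + 1 ≤ m * q := by nlinarith
  -- the cells (1,1), (2,1), (m+1,1)
  have g0 : g m q 0 0 = 0 := by simp [g, lin]
  have g1 : g m q 1 0 = 3 := by
    have h1 : (1 : ℤ) % m = 1 := Int.emod_eq_of_lt (by norm_num) (by linarith)
    have h2 : (1 : ℤ) / m = 0 := Int.ediv_eq_zero_of_lt (by norm_num) (by linarith)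
    have h3 : (3 : ℤ) % m = 3 := Int.emod_eq_of_lt (by norm_num) (by linarith)
    simp [g, lin, h1, h2, h3]
  have gm : g m q m 0 = 5 * m := by
    have h1 : (m : ℤ) / m = 1 := Int.ediv_self hm0.ne'
    have h3 : (5 : ℤ) % q = 5 := Int.emod_eq_of_lt (by norm_num) hq5
    simp [g, lin, h1, h3]
    ring
  have mem : ∀ i : ℤ, 0 ≤ i → i < m * q → ![i + 1, 1, g m q i 0 + 1] ∈ queens m q := by
    intro i hi hi'
    rw [mem_queens]
    simp only [Matrix.cons_val_zero, Matrix.cons_val_one, Matrix.cons_val]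
    refine ⟨⟨by linarith, by linarith⟩, ⟨le_rfl, by linarith⟩, ?_⟩
    simp
  have c0 := h _ (mem 0 le_rfl (by linarith))
  have c1 := h _ (mem 1 (by norm_num) (by linarith))
  have cm := h _ (mem m hm0.le (by linarith))
  rw [g0] at c0
  rw [g1] at c1
  rw [gm] at cm
  simp only [Matrix.cons_val_zero, Matrix.cons_val_one, Matrix.cons_val] at c0 c1 cm
  have d0 := c0.dvd
  have d1 := c1.dvd
  have dm := cm.dvd
  push_cast at d0 d1 dm
  -- `a ≡ 3 (mod mq)` and `m a ≡ 5 m (mod mq)`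
  have e1 : (m : ℤ) * q ∣ a - 3 := by
    have := dvd_sub d1 d0
    refine (this.trans (dvd_of_eq ?_))
    ring
  have e2 : (m : ℤ) * q ∣ m * (a - 5) := by
    have := dvd_sub dm d0
    refine (this.trans (dvd_of_eq ?_))
    ring
  have e3 : (q : ℤ) ∣ a - 5 := Int.dvd_of_mul_dvd_mul_left hm0.ne' e2
  have e4 : (q : ℤ) ∣ a - 3 := (dvd_mul_left _ _).trans e1
  have e5 : (q : ℤ) ∣ 2 := by
    have := dvd_sub e4 e3
    refine this.trans (dvd_of_eq ?_)
    ring
  have := Int.le_of_dvd (by norm_num) e5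
  linarith

/-- **Q1 of MP_70387e: yes.**  For every composite `n` coprime to `210` (for instance `n = 121`)
the `(n,3)`-queens problem has a solution that is not regular. -/
theorem result : ∀ n : ℕ, 1 < n → ¬ n.Prime → Nat.Coprime n 210 →
    ∃ Q : Finset (Fin 3 → ℤ), IsSolution n Q ∧ ¬ IsRegular n Q := by
  intro n hn hp hc
  obtain ⟨m, hm, hm1, hmn⟩ := Nat.exists_dvd_of_not_prime2 hn hp
  obtain ⟨q, rfl⟩ := hm
  have hm' : 1 < m := hm1
  have hq' : 1 < q := by
    by_contra hlt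
    interval_cases q <;> omega
  exact ⟨queens m q, isSolution_queens hm' hq' hc, not_isRegular_queens hm' hq' hc⟩

end Pool.Agent.Results.MP_70387e_co.NonRegular
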